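import Pool.Agent.Lib.HBQ.App7
import Pool.Agent.Lib.HBQ.Rec2

set_option autoImplicit false

namespace Pool.Agent.Results.MP_0b15c0_nt.DensityTheorem

/-- `b` is a witness for `n`: writing `n - 1 = 2^j d` with `d` odd, `n` fails the strong test to
base `b`. -/
def IsWitness (n b : ℕ) : Prop :=
  ∀ j d : ℕ, n - 1 = 2 ^ j * d → Odd d →
    ((b : ZMod n) ^ d ≠ 1 ∧ ∀ i : ℕ, i < j → (b : ZMod n) ^ (2 ^ i * d) ≠ -1)

/-- `n` has a witness `b` with `1 < b ≤ c (log n)^A`. -/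
def HasWitnessUpTo (c A : ℝ) (n : ℕ) : Prop :=
  ∃ b : ℕ, 1 < b ∧ (b : ℝ) ≤ c * (Real.log (n : ℝ)) ^ A ∧ IsWitness n b

/-- composite numbers up to `x` without a witness in this range -/
def Exceptional (c A : ℝ) (x : ℕ) : Set ℕ :=
  {n : ℕ | 1 < n ∧ n ≤ x ∧ ¬ n.Prime ∧ ¬ HasWitnessUpTo c A n}

theorem result : ∀ c A ε : ℝ, 0 < c → 1 < A → 0 < ε → ∃ C : ℝ, ∀ x : ℕ, 1 ≤ x →
    ((Exceptional c A x).ncard : ℝ) ≤ C * (x : ℝ) ^ (1 / A + ε) := by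
  classical
  intro c A ε hc hA hε
  obtain ⟨C, _, hC⟩ := HBQ.density' HBQ.HB_main A c ε hA hc hε
  refine ⟨C, fun x hx => ?_⟩
  obtain ⟨E, hE⟩ : ∃ E : Finset ℕ, E = (Finset.Icc 1 x).filter
    (fun n => 1 < n ∧ n ≤ x ∧ ¬ n.Prime ∧ ¬ HasWitnessUpTo c A n) := ⟨_, rfl⟩
  have hmemE : ∀ n, n ∈ E ↔ (1 < n ∧ n ≤ x ∧ ¬ n.Prime ∧ ¬ HasWitnessUpTo c A n) := by
    intro n
    rw [hE, Finset.mem_filter, Finset.mem_Icc]
    constructor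
    · exact fun h => h.2
    · intro h
      exact ⟨⟨h.1.le, h.2.1⟩, h⟩
  have hset : Exceptional c A x = (E : Set ℕ) := by
    ext n
    rw [Finset.mem_coe, hmemE]
    rfl
  rw [hset, Set.ncard_coe_finset]
  apply hC x hx E
  intro n hn
  obtain ⟨h1, h2, h3, h4⟩ := (hmemE n).1 hn
  refine ⟨h1, h2, h3, ?_⟩
  intro j d hjd hd b hb hbn
  apply Lib.MP0b15c0.pass_of_not hjd hd
  intro hw
  exact h4 ⟨b, by omega, hbn, hw⟩

end Pool.Agent.Results.MP_0b15c0_nt.DensityTheorem
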