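import Pool.Agent.Lib.MP_0b15c0_nt.Group

set_option autoImplicit false

namespace Pool.Agent.Results.MP_0b15c0_nt.LargeIndex

/-- `b` is a witness for `n`: writing `n - 1 = 2^j d` with `d` odd, `n` fails the strong test to
base `b`. -/
def IsWitness (n b : ℕ) : Prop :=
  ∀ j d : ℕ, n - 1 = 2 ^ j * d → Odd d →
    ((b : ZMod n) ^ d ≠ 1 ∧ ∀ i : ℕ, i < j → (b : ZMod n) ^ (2 ^ i * d) ≠ -1)

/-- `n` has a witness `b` with `1 < b ≤ 2 (log n)^2`. -/
def HasSmallWitness (n : ℕ) : Prop :=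
  ∃ b : ℕ, 1 < b ∧ (b : ℝ) ≤ 2 * (Real.log (n : ℝ)) ^ 2 ∧ IsWitness n b

/-- odd part of `m` -/
def oddPart (m : ℕ) : ℕ := m / 2 ^ padicValNat 2 m

theorem result : ∀ n q : ℕ, 1 < n → ¬ n.Prime → q.Prime → q ∣ n →
    ((Nat.gcd (q - 1) (n - 1)) ^ 2 ≤ q ∨
      (∃ p : ℕ, p.Prime ∧ p ∣ n ∧
        (Nat.gcd (q - 1) (2 ^ padicValNat 2 (p - 1) * oddPart (n - 1))) ^ 2 ≤ q) ∨
      n ^ 2 ≤ q ^ 3) → HasSmallWitness n := by
  have h1 : ∀ n p q d : ℕ, 1 < n → ¬ n.Prime → p.Prime → q.Prime → p ∣ n → q ∣ n → Odd d →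
      (∃ j : ℕ, n - 1 = 2 ^ j * d) →
      (Nat.gcd (q - 1) (2 ^ padicValNat 2 (p - 1) * d)) ^ 2 ≤ q → HasSmallWitness n := by
    rintro n p q d hn hnp hp hq hpn hqn hd ⟨j, hjd⟩ hg
    exact Lib.MP0b15c0.main hn hnp hp hq hpn hqn hjd hd hg
  have h2 : ∀ n q : ℕ, 1 < n → ¬ n.Prime → q.Prime → q ∣ n → (Nat.gcd (q - 1) (n - 1)) ^ 2 ≤ q →
      HasSmallWitness n := by
    intro n q hn hnp hq hqn hg
    by_cases h2 : 2 ∣ n
    · -- even n: base 2
      refine ⟨2, by norm_num, ?_, ?_⟩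
      · have hn4 : 4 ≤ n := by
          by_contra hlt
          have : n = 2 ∨ n = 3 := by omega
          rcases this with h | h
          · rw [h] at hnp; exact hnp Nat.prime_two
          · rw [h] at hnp; exact hnp Nat.prime_three
        have hlog4 : (1 : ℝ) ≤ Real.log n := by
          rw [Real.le_log_iff_exp_le (by exact_mod_cast (by omega : 0 < n))]
          have : (4 : ℝ) ≤ n := by exact_mod_cast hn4
          linarith [Real.exp_one_lt_d9]
        push_cast
        nlinarith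
      · intro j d hjd hd
        have hd0 : d ≠ 0 := hd.pos.ne'
        have hF : Fact (Nat.Prime 2) := ⟨Nat.prime_two⟩
        have hf : (ZMod.castHom h2 (ZMod 2)) ((2 : ℕ) : ZMod n) = 0 := by
          rw [map_natCast]; rfl
        constructor
        · intro h
          have := congrArg (ZMod.castHom h2 (ZMod 2)) h
          rw [map_pow, map_one, hf, zero_pow hd0] at this
          exact zero_ne_one this
        · intro i _ h
          have := congrArg (ZMod.castHom h2 (ZMod 2)) h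
          rw [map_pow, map_neg, map_one, hf, zero_pow (by positivity)] at this
          have h3 : (1 : ZMod 2) = 0 := by
            rw [← neg_neg (1 : ZMod 2), ← this, neg_zero]
          exact one_ne_zero h3
    · obtain ⟨j, d, hd, hjd⟩ : ∃ j d : ℕ, ¬ 2 ∣ d ∧ n - 1 = 2 ^ j * d :=
        Nat.exists_eq_pow_mul_and_not_dvd (by omega) 2 (by norm_num)
      have hd' : Odd d := by
        rw [Nat.odd_iff]; omega
      obtain ⟨p, hp, hpn, hpv⟩ := Lib.MP0b15c0.exists_small_val hn h2 hjd hd'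
      apply h1 n p q d hn hnp hp hq hpn hqn hd' ⟨j, hjd⟩
      refine le_trans (Nat.pow_le_pow_left ?_ 2) hg
      apply Nat.le_of_dvd
      · exact Nat.gcd_pos_of_pos_left _ (by have := hq.two_le; omega)
      · apply Nat.dvd_gcd (Nat.gcd_dvd_left _ _)
        refine dvd_trans (Nat.gcd_dvd_right _ _) ?_
        rw [hjd]
        exact Nat.mul_dvd_mul_right (pow_dvd_pow 2 hpv) d
  intro n q hn hnp hq hqn hyp
  rcases hyp with hyp | ⟨p, hp, hpn, hyp⟩ | hbig
  · exact h2 n q hn hnp hq hqn hyp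
  · obtain ⟨j, d, hd, hjd⟩ : ∃ j d : ℕ, ¬ 2 ∣ d ∧ n - 1 = 2 ^ j * d :=
      Nat.exists_eq_pow_mul_and_not_dvd (by omega) 2 (by norm_num)
    have hd' : Odd d := by
      rw [Nat.odd_iff]; omega
    have hd0 : d ≠ 0 := hd'.pos.ne'
    have hval : padicValNat 2 (n - 1) = j := by
      have hF : Fact (Nat.Prime 2) := ⟨Nat.prime_two⟩
      rw [hjd, padicValNat.mul (by positivity) hd0, padicValNat.prime_pow,
        padicValNat.eq_zero_of_not_dvd hd, add_zero]
    have hodd : oddPart (n - 1) = d := by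
      unfold oddPart
      rw [hval, hjd]
      exact Nat.mul_div_cancel_left d (by positivity)
    rw [hodd] at hyp
    exact h1 n p q d hn hnp hp hq hpn hqn hd' ⟨j, hjd⟩ hyp
  apply h2 n q hn hnp hq hqn
  obtain ⟨m, hm⟩ := hqn
  have hq1 := hq.two_le
  have hm1 : m ≠ 1 := by
    intro h; rw [h, mul_one] at hm
    exact hnp (hm ▸ hq)
  have hm0 : m ≠ 0 := by
    intro h; rw [h, mul_zero] at hm; omega
  have hm2 : 2 ≤ m := by omega
  -- gcd (q-1) (n-1) divides m - 1
  have hdvd : Nat.gcd (q - 1) (n - 1) ∣ m - 1 := by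
    have e : n - 1 = (q - 1) * m + (m - 1) := by
      rw [hm, Nat.sub_mul]
      have h3 : m ≤ q * m := Nat.le_mul_of_pos_left m (by omega)
      omega
    have h4 := Nat.gcd_dvd_right (q - 1) (n - 1)
    have h5 : Nat.gcd (q - 1) (n - 1) ∣ (q - 1) * m :=
      Dvd.dvd.mul_right (Nat.gcd_dvd_left _ _) m
    exact (Nat.dvd_add_right h5).1 (e ▸ h4)
  have hle : Nat.gcd (q - 1) (n - 1) ≤ m := by
    have := Nat.le_of_dvd (by omega) hdvd
    omega
  have hmq : m ^ 2 ≤ q := by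
    rw [hm] at hbig
    have h6 : q ^ 2 * m ^ 2 ≤ q ^ 2 * q := by
      calc q ^ 2 * m ^ 2 = (q * m) ^ 2 := by ring
        _ ≤ q ^ 3 := hbig
        _ = q ^ 2 * q := by ring
    exact Nat.le_of_mul_le_mul_left h6 (by positivity)
  exact le_trans (Nat.pow_le_pow_left hle 2) hmq

end Pool.Agent.Results.MP_0b15c0_nt.LargeIndex
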