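import Pool.Agent.Lib.Linnik.Main

set_option autoImplicit false

namespace Pool.Agent.Results.MP_0b15c0_nt.LargeLeastWitness

/-- `n` passes the strong test for the base `b`: writing `n - 1 = 2 ^ j * d` with `d` odd, either
`b ^ d = 1` modulo `n`, or `b ^ (2 ^ i * d) = -1` modulo `n` for some `i < j`. -/
def Passes (n b : ℕ) : Prop :=
  ∀ j d : ℕ, n - 1 = 2 ^ j * d → Odd d →
    ((b : ZMod n) ^ d = 1 ∨ ∃ i : ℕ, i < j ∧ (b : ZMod n) ^ (2 ^ i * d) = -1)

/-- There is a constant `C > 0` such that for all sufficiently large `x` there is a composite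
`n ≤ x` (in fact a Carmichael number) which passes the strong test for every base
`b ≤ log x * exp (- C * log log log x * log log log log x)`. -/
theorem result : ∃ C x₀ : ℝ, 0 < C ∧ ∀ x : ℝ, x₀ ≤ x →
    ∃ n : ℕ, 1 < n ∧ ¬ n.Prime ∧ (n : ℝ) ≤ x ∧
      (Squarefree n ∧ ∀ p : ℕ, p.Prime → p ∣ n → p - 1 ∣ n - 1) ∧
      ∀ b : ℕ, 1 ≤ b →
        (b : ℝ) ≤ Real.log x * Real.exp (-(C * (Real.log (Real.log (Real.log x)) *
          Real.log (Real.log (Real.log (Real.log x)))))) → Passes n b := by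
  obtain ⟨C, hC, h⟩ := Lnk.final Lnk.primesAP
  obtain ⟨x₀, hx₀⟩ := Filter.eventually_atTop.1 h
  refine ⟨C, x₀, hC, fun x hx => ?_⟩
  obtain ⟨n, h1, h2, h3, h4, h5, h6⟩ := hx₀ x hx
  exact ⟨n, h1, h2, h3, ⟨h4, h5⟩, h6⟩

end Pool.Agent.Results.MP_0b15c0_nt.LargeLeastWitness
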