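import Pool.Agent.Lib.Burgess.WitFinal

set_option autoImplicit false

namespace Pool.Agent.Results.MP_0b15c0_nt.UniformWitness

/-- `b` is a witness for `n`: writing `n - 1 = 2^j d` with `d` odd, `n` fails the strong test to
base `b`. -/
def IsWitness (n b : ℕ) : Prop :=
  ∀ j d : ℕ, n - 1 = 2 ^ j * d → Odd d →
    ((b : ZMod n) ^ d ≠ 1 ∧ ∀ i : ℕ, i < j → (b : ZMod n) ^ (2 ^ i * d) ≠ -1)

theorem result : ∀ ε : ℝ, 0 < ε → ∃ C : ℝ, ∀ n : ℕ, 1 < n → ¬ n.Prime →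
    ∃ b : ℕ, b.Prime ∧
      (b : ℝ) ≤ C * (n : ℝ) ^ (1 / (2 * Real.exp (1 / 2) + 4 * Real.exp (3 / 4)) + ε) ∧
      IsWitness n b := by
  intro ε hε
  exact Pool.Agent.Lib.Burgess.witness_bound ε hε

end Pool.Agent.Results.MP_0b15c0_nt.UniformWitness
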